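import Pool.Agent.Helper38K3.ZG.Stage

/-!
# The non-null half: the lengths of the stages
-/

namespace Pool.Agent.Helper38K3.ZG

open Pool.Agent.NPC Pool.Agent.H620R2.Gauge H568R2 Finset Pool.Agent.Z45.OG

theorem exists_len {f : ℕ → ℝ} (hf : ¬ Cond1 f) (G : Polynomial ℕ) (B : ℕ) :
    ∃ n ≥ B, ∀ N ≥ 2 ^ (2 * n + 1), ((G.eval n : ℕ) : ℝ) ≤ f N := by
  unfold Cond1 at hf
  push Not at hf
  have h1 := hf (G.natDegree + 1)
  rw [Filter.frequently_atTop] at h1
  obtain ⟨N0, hN0, h2⟩ := h1 (2 ^ (B + G.eval 1 + 1))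
  have hpos : N0 ≠ 0 := by
    have : 0 < 2 ^ (B + G.eval 1 + 1) := by positivity
    omega
  have hlog : B + G.eval 1 + 1 ≤ Nat.log 2 N0 := Nat.le_log_of_pow_le (by norm_num) hN0
  refine ⟨Nat.log 2 N0, by omega, fun N hN => ?_⟩
  have h3 : N0 ≤ N := by
    have h4 : N0 < 2 ^ (Nat.log 2 N0 + 1) := Nat.lt_pow_succ_log_self (by norm_num) N0
    have h5 : 2 ^ (Nat.log 2 N0 + 1) ≤ 2 ^ (2 * Nat.log 2 N0 + 1) :=
      Nat.pow_le_pow_right (by norm_num) (by omega)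
    omega
  have h4 := h2 N h3
  have h5 : ((Nat.log 2 N0 : ℕ) : ℝ) ≤ Real.logb 2 N0 := Real.natLog_le_logb N0 2
  have h6 : G.eval (Nat.log 2 N0) ≤ (Nat.log 2 N0) ^ (G.natDegree + 1) := by
    refine (X9.eval_le G _ (by omega)).trans ?_
    rw [pow_succ, mul_comm]
    exact Nat.mul_le_mul_left _ (by omega)
  calc ((G.eval (Nat.log 2 N0) : ℕ) : ℝ) ≤ (((Nat.log 2 N0) ^ (G.natDegree + 1) : ℕ) : ℝ) := by
        exact_mod_cast h6
    _ = ((Nat.log 2 N0 : ℕ) : ℝ) ^ (G.natDegree + 1) := by push_cast; ring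
    _ ≤ (Real.logb 2 N0) ^ (G.natDegree + 1) := pow_le_pow_left₀ (Nat.cast_nonneg _) h5 _
    _ ≤ f N := h4.le

/-- the number of strings of a stage -/
def tot (n r : ℕ) : ℕ := 2 * n + 2 + 2 ^ (r + 1)

theorem exists_stage {f : ℕ → ℝ} (hf : ¬ Cond1 f) (M : Alg) (B S : ℕ) :
    ∃ n r : ℕ, B ≤ n ∧ r ≤ n ∧ 2 * M.p.eval n ≤ 2 ^ r ∧
      ∀ N ≥ 2 ^ (2 * n + 1), ((S + tot n r : ℕ) : ℝ) ≤ f N := by
  obtain ⟨n0, hn0⟩ := X9.exists_n0 (Polynomial.C 2 * M.p + 1)
  obtain ⟨n, hn, h⟩ := exists_len hf (Polynomial.C S + Polynomial.C 2 * Polynomial.X +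
    Polynomial.C 4 + Polynomial.C 8 * M.p) (max B n0)
  have h1 := hn0 n (le_trans (le_max_right _ _) hn)
  simp only [Polynomial.eval_add, Polynomial.eval_mul, Polynomial.eval_C, Polynomial.eval_one]
    at h1
  refine ⟨n, Nat.size (2 * M.p.eval n), le_trans (le_max_left _ _) hn, ?_, ?_, ?_⟩
  · exact Nat.size_le.2 (by omega)
  · exact (Nat.lt_size_self _).le
  · intro N hN
    refine le_trans ?_ (h N hN)
    have h2 : 2 ^ Nat.size (2 * M.p.eval n) ≤ 4 * M.p.eval n + 1 := by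
      rcases Nat.eq_zero_or_pos (M.p.eval n) with h0 | h0
      · rw [h0]; simp
      · have h3 : 0 < Nat.size (2 * M.p.eval n) := Nat.size_pos.2 (by omega)
        have h4 : Nat.size (2 * M.p.eval n) - 1 < Nat.size (2 * M.p.eval n) := by omega
        have h5 := Nat.lt_size.1 h4
        have h6 : 2 ^ Nat.size (2 * M.p.eval n) =
            2 * 2 ^ (Nat.size (2 * M.p.eval n) - 1) := by
          rw [← pow_succ']
          congr 1
          omega
        omega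
    have h3 : S + tot n (Nat.size (2 * M.p.eval n)) ≤ (Polynomial.C S +
        Polynomial.C 2 * Polynomial.X + Polynomial.C 4 + Polynomial.C 8 * M.p).eval n := by
      unfold tot
      rw [pow_succ]
      simp only [Polynomial.eval_add, Polynomial.eval_mul, Polynomial.eval_C, Polynomial.eval_X]
      omega
    exact_mod_cast h3

/-- the lengths and the numbers of random bits of all the stages -/
theorem exists_stages {f : ℕ → ℝ} (hf : ¬ Cond1 f) (al : ℕ → Alg) (qb : Alg → Polynomial ℕ) :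
    ∃ n r : ℕ → ℕ, (∀ j, r j ≤ n j) ∧ (∀ j, 2 * (al j).p.eval (n j) ≤ 2 ^ r j) ∧
      (∀ j, 4 * n j + 4 + r j + (qb (al j)).eval (n j) ≤ n (j + 1)) ∧
      ∀ j, ∀ N ≥ 2 ^ (2 * n j + 1), ((∑ i ∈ range (j + 1), tot (n i) (r i) : ℕ) : ℝ) ≤ f N := by
  choose nf rf h1 h2 h3 h4 using fun M => exists_stage hf M
  let st : ℕ → ℕ × ℕ := fun j => Nat.rec (0, 0) (fun j s =>
    (4 * nf (al j) s.1 s.2 + 4 + rf (al j) s.1 s.2 + (qb (al j)).eval (nf (al j) s.1 s.2),
      s.2 + tot (nf (al j) s.1 s.2) (rf (al j) s.1 s.2))) j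
  have hst : ∀ j, st (j + 1) = (4 * nf (al j) (st j).1 (st j).2 + 4 +
      rf (al j) (st j).1 (st j).2 + (qb (al j)).eval (nf (al j) (st j).1 (st j).2),
      (st j).2 + tot (nf (al j) (st j).1 (st j).2) (rf (al j) (st j).1 (st j).2)) := fun j => rfl
  refine ⟨fun j => nf (al j) (st j).1 (st j).2, fun j => rf (al j) (st j).1 (st j).2,
    fun j => h2 _ _ _, fun j => h3 _ _ _, fun j => ?_, fun j N hN => ?_⟩
  · have h5 := h1 (al (j + 1)) (st (j + 1)).1 (st (j + 1)).2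
    refine le_trans ?_ h5
    rw [hst]
  · have hsum : ∀ j, (st j).2 = ∑ i ∈ range j, tot (nf (al i) (st i).1 (st i).2)
        (rf (al i) (st i).1 (st i).2) := by
      intro j
      induction j with
      | zero => rfl
      | succ j ih => rw [Finset.sum_range_succ, ← ih, hst]
    rw [Finset.sum_range_succ, ← hsum]
    exact h4 _ _ _ N hN

end Pool.Agent.Helper38K3.ZG
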