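import Pool.Agent.H620R2.GaugeX.Defs
import Pool.Agent.H620R2.GaugeR.Base

/-!
# Bounded error randomized polynomial time relative to an oracle, with error probability 1/3
-/

namespace Pool.Agent.Helper38K3.ZG

open Pool.Agent.NPC Pool.Agent.H620R2.Gauge

/-- The language `L` is in `BPP` relative to `A`: for a random string `w` of length `p(|x|)` the
algorithm `V` accepts `⟨w, x⟩` with probability at least `2/3` if `x` is in `L`, and with
probability at most `1/3` if it is not. -/
def IsBPP3 (A : Oracle) (L : Set (List Bool)) : Prop :=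
  ∃ (V : List Bool → List Bool) (p : Polynomial ℕ), IsFP A V ∧ ∀ x,
    (x ∈ L → 2 / 3 ≤ accPr V (p.eval x.length) x) ∧
    (x ∉ L → accPr V (p.eval x.length) x ≤ 1 / 3)

end Pool.Agent.Helper38K3.ZG
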