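import Pool.Agent.Helper38K3.ZG.Main

/-!
# `ZPP ⊆ RP ⊆ BPP` relative to every oracle
-/

namespace Pool.Agent.Helper38K3.ZG

open Pool.Agent.NPC Pool.Agent.H620R2.Gauge H568R2 Finset Pool.Agent.Z45.OG

theorem isRP_of_isZPP {A : Oracle} {L : Set (List Bool)} (h : IsZPP A L) : IsRP A L := by
  obtain ⟨V, p, hV, h⟩ := h
  refine ⟨V, p, hV, fun x => ?_⟩
  obtain ⟨h1, h2⟩ := h x
  have hlen : ∀ w : Fin (p.eval x.length) → Bool, (List.ofFn w).length = p.eval x.length :=
    fun w => by simp
  constructor
  · intro hx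
    have h3 : ∀ w : Fin (p.eval x.length) → Bool,
        (V (pairBits (List.ofFn w) x) = [true] ∨ V (pairBits (List.ofFn w) x) = [false]) ↔
        V (pairBits (List.ofFn w) x) = [true] := by
      intro w
      constructor
      · rintro (h4 | h4)
        · exact h4
        · exact absurd hx ((h1 _ (hlen w)).2 h4)
      · exact Or.inl
    simp only [h3] at h2
    exact h2
  · intro hx
    unfold accPr
    have h3 : IsEmpty {w : Fin (p.eval x.length) → Bool //
        V (pairBits (List.ofFn w) x) = [true]} :=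
      ⟨fun w => hx ((h1 _ (hlen w.1)).1 w.2)⟩
    rw [Nat.card_of_isEmpty, Nat.cast_zero, zero_div]

/-- two runs -/
def two (V : List Bool → List Bool) (p : Polynomial ℕ) (y : List Bool) : List Bool :=
  [decide (V (pairBits (Z45.OG.blk (p.eval (unpair y).2.length) (unpair y).1 0) (unpair y).2) =
    [true]) ||
   decide (V (pairBits (Z45.OG.blk (p.eval (unpair y).2.length) (unpair y).1 1) (unpair y).2) =
    [true])]

theorem isFP_two {A : Oracle} {V : List Bool → List Bool} (hV : IsFP A V) (p : Polynomial ℕ) :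
    IsFP A (two V p) := by
  have hφ : ∀ i : ℕ, Poly (fun y : List Bool =>
      pairBits (Z45.OG.blk (p.eval (unpair y).2.length) (unpair y).1 i) (unpair y).2) := by
    intro i
    have hw : Poly (fun y => (unpair y).1) := Poly.fst poly_unpair
    have hx : Poly (fun y => (unpair y).2) := Poly.snd poly_unpair
    exact H622R2.poly_pairBits (poly_blk ((UPoly.length hx).eval p) hw (NPC.Poly.const i)) hx
  have h0 : IsFP A (fun y => V (pairBits (Z45.OG.blk (p.eval (unpair y).2.length)
      (unpair y).1 0) (unpair y).2)) := IsFP.comp hV (IsFP.of_poly (hφ 0))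
  have h1 := IsFP.seq (φ := fun q : List Bool × List Bool =>
    pairBits (Z45.OG.blk (p.eval (unpair q.1).2.length) (unpair q.1).1 1) (unpair q.1).2)
    (ψ := fun q : List Bool × List Bool × List Bool =>
      [decide (q.2.1 = [true]) || decide (q.2.2 = [true])]) h0 hV
    ((hφ 1).comp (Poly.fst Poly.id))
    (Poly.cons (Poly.or (Poly.decide_eq (Poly.fst (Poly.snd Poly.id)) (NPC.Poly.const _))
      (Poly.decide_eq (Poly.snd (Poly.snd Poly.id)) (NPC.Poly.const _))) (NPC.Poly.const []))
  exact h1

theorem two_iff (V : List Bool → List Bool) (p : Polynomial ℕ) (x : List Bool)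
    (f : Fin (2 * p.eval x.length) → Bool) :
    ¬ two V p (pairBits (List.ofFn f) x) = [true] ↔ ∀ i : Fin 2,
      ¬ V (pairBits (List.ofFn (fun j => f (finProdFinEquiv (i, j)))) x) = [true] := by
  unfold two
  rw [unpair_pairBits]
  simp only
  have e0 := blk_ofFn (T := 2) (t := p.eval x.length) f 0
  have e1 := blk_ofFn (T := 2) (t := p.eval x.length) f 1
  have c0 : ((0 : Fin 2) : ℕ) = 0 := rfl
  have c1 : ((1 : Fin 2) : ℕ) = 1 := rfl
  rw [c0] at e0
  rw [c1] at e1
  rw [e0, e1, Fin.forall_fin_two]
  simp only [List.cons.injEq, and_true, Bool.or_eq_true, decide_eq_true_eq, not_or]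

theorem card_not {m : ℕ} (E : (Fin m → Bool) → Prop) :
    (Nat.card {w : Fin m → Bool // ¬ E w} : ℝ) = 2 ^ m - Nat.card {w : Fin m → Bool // E w} := by
  classical
  rw [Nat.card_eq_fintype_card, Nat.card_eq_fintype_card, Fintype.card_subtype,
    Fintype.card_subtype]
  have h := Finset.card_filter_add_card_filter_not (s := (Finset.univ : Finset (Fin m → Bool))) E
  have h2 : (Finset.univ : Finset (Fin m → Bool)).card = 2 ^ m := by simp
  rw [h2] at h
  have h3 : (((univ.filter E).card + (univ.filter (fun w => ¬ E w)).card : ℕ) : ℝ) =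
      ((2 ^ m : ℕ) : ℝ) := by rw [h]
  push_cast at h3
  linarith

theorem isBPP3_of_isRP {A : Oracle} {L : Set (List Bool)} (h : IsRP A L) : IsBPP3 A L := by
  obtain ⟨V, p, hV, h⟩ := h
  refine ⟨two V p, Polynomial.C 2 * p, isFP_two hV p, fun x => ?_⟩
  have hP : (Polynomial.C 2 * p).eval x.length = 2 * p.eval x.length := by
    rw [Polynomial.eval_mul, Polynomial.eval_C]
  rw [hP]
  set P := p.eval x.length with hPd
  -- the probability of failure is squared
  have key : 1 - accPr (two V p) (2 * P) x = (1 - accPr V P x) ^ 2 := by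
    have h1 : (Nat.card {f : Fin (2 * P) → Bool // ¬ two V p (pairBits (List.ofFn f) x) =
        [true]} : ℝ) = (Nat.card {w : Fin P → Bool // ¬ V (pairBits (List.ofFn w) x) =
          [true]} : ℝ) ^ 2 := by
      have e1 := card_blocks (T := 2) (t := P) (fun v : Fin 2 → Fin P → Bool =>
        ∀ i, ¬ V (pairBits (List.ofFn (v i)) x) = [true])
      have e2 := card_pi_bad 2 (fun w : Fin P → Bool => ¬ V (pairBits (List.ofFn w) x) = [true])
      have e3 : Nat.card {f : Fin (2 * P) → Bool // ¬ two V p (pairBits (List.ofFn f) x) =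
          [true]} = Nat.card {f : Fin (2 * P) → Bool // ∀ i : Fin 2,
            ¬ V (pairBits (List.ofFn (fun j => f (finProdFinEquiv (i, j)))) x) = [true]} := by
        simp only [two_iff V p x]
        rfl
      rw [e3, e1, e2]
      push_cast
      rfl
    rw [card_not (fun f : Fin (2 * P) → Bool => two V p (pairBits (List.ofFn f) x) = [true]),
      card_not (fun w : Fin P → Bool => V (pairBits (List.ofFn w) x) = [true])] at h1
    unfold accPr
    have h2 : (2 : ℝ) ^ (2 * P) = (2 ^ P) ^ 2 := by rw [← pow_mul, mul_comm]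
    have hpos : (0 : ℝ) < 2 ^ P := by positivity
    rw [h2] at h1 ⊢
    field_simp
    linarith
  obtain ⟨h1, h2⟩ := h x
  constructor
  · intro hx
    have h3 := h1 hx
    have h4 : 0 ≤ 1 - accPr V P x := by
      have h5 := card_not (fun w : Fin P → Bool => V (pairBits (List.ofFn w) x) = [true])
      have h6 : (0 : ℝ) ≤ (Nat.card {w : Fin P → Bool //
        ¬ V (pairBits (List.ofFn w) x) = [true]} : ℝ) := Nat.cast_nonneg _
      unfold accPr
      have hpos : (0 : ℝ) < 2 ^ P := by positivity
      rw [sub_nonneg, div_le_one hpos]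
      linarith
    nlinarith
  · intro hx
    have h3 := h2 hx
    rw [h3] at key
    linarith

end Pool.Agent.Helper38K3.ZG
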