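import Pool.Agent.Z45.OG.BppB
import Pool.Agent.H620R2.Gauge2.V1
import Pool.Agent.H620R2.GaugeX.Defs

/-!
# Majority votes with random bits from far places of the oracle: the error probability
-/

namespace Pool.Agent.Helper38K3.ZG

open Pool.Agent.NPC Pool.Agent.H620R2.Gauge H568R2 Finset Pool.Agent.Z45.OG

/-- marginals of the uniform distribution -/
theorem Ex_inj {I J : Type} [Fintype I] [DecidableEq I] [Fintype J] [DecidableEq J] (pos : I → J)
    (hpos : Function.Injective pos) (F : (I → Bool) → ℝ) :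
    Ex unif (fun b : J → Bool => F (fun i => b (pos i))) = Ex unif F := by
  classical
  let C := ((Set.range pos)ᶜ : Set J)
  let e : I ⊕ C ≃ J := (Equiv.sumCongr (Equiv.ofInjective pos hpos) (Equiv.refl _)).trans
    (Equiv.Set.sumCompl (Set.range pos))
  have he : ∀ i, e (Sum.inl i) = pos i := fun i => rfl
  have hu : ∀ {K : Type} [Fintype K] (b : K → Bool), ∏ i, unif (b i) = (1 / 2) ^ Fintype.card K := by
    intro K _ b
    simp [unif]
  unfold Ex
  simp only [hu]
  rw [← Finset.mul_sum, ← Finset.mul_sum]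
  have h1 : ∑ b : J → Bool, F (fun i => b (pos i)) =
      ∑ c : I ⊕ C → Bool, F (fun i => c (Sum.inl i)) := by
    rw [← (Equiv.arrowCongr e (Equiv.refl Bool)).sum_comp]
    refine Finset.sum_congr rfl fun c _ => ?_
    congr 1
    funext i
    simp only [Equiv.arrowCongr_apply, Equiv.coe_refl, Function.comp_apply, id_eq]
    rw [← he, Equiv.symm_apply_apply]
  have h2 : ∑ c : I ⊕ C → Bool, F (fun i => c (Sum.inl i)) =
      2 ^ Fintype.card C * ∑ a : I → Bool, F a := by
    rw [← (Equiv.sumArrowEquivProdArrow I C Bool).symm.sum_comp, Fintype.sum_prod_type]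
    rw [Finset.mul_sum]
    refine Finset.sum_congr rfl fun a _ => ?_
    have : ∀ d : C → Bool, (fun i => (Equiv.sumArrowEquivProdArrow I C Bool).symm (a, d)
        (Sum.inl i)) = a := fun d => rfl
    simp only [this, Finset.sum_const, Finset.card_univ, nsmul_eq_mul]
    rw [Fintype.card_fun, Fintype.card_bool]
    push_cast
    ring
  have h3 : Fintype.card J = Fintype.card I + Fintype.card C := by
    rw [← Fintype.card_sum]
    exact (Fintype.card_congr e).symm
  rw [h1, h2, h3, pow_add]
  have h4 : ((1 : ℝ) / 2) ^ Fintype.card C * 2 ^ Fintype.card C = 1 := by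
    rw [← mul_pow]
    norm_num
  calc (1 / 2 : ℝ) ^ Fintype.card I * (1 / 2) ^ Fintype.card C *
        (2 ^ Fintype.card C * ∑ a : I → Bool, F a)
      = (1 / 2 : ℝ) ^ Fintype.card I * ((1 / 2) ^ Fintype.card C *
        2 ^ Fintype.card C) * ∑ a : I → Bool, F a := by ring
    _ = _ := by rw [h4, mul_one]

theorem Ex_eq_card {n : ℕ} (E : (Fin n → Bool) → Prop) [DecidablePred E] :
    Ex unif (fun a : Fin n → Bool => if E a then (1 : ℝ) else 0) =
      ((univ.filter E).card : ℝ) * 2 ^ (-(n : ℝ)) := by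
  convert (card_of_Ex E).symm

/-- the output of an algorithm, as a total function -/
def VA (M : Alg) (A : Oracle) (z : List Bool) : List Bool := (M.out A z).getD []

/-- the place number `i` beyond the strings of length `ℓ` -/
def pl (ℓ i : ℕ) : List Bool := List.replicate (ℓ + 1) true ++ Nat.bits i

theorem pl_inj {ℓ i j : ℕ} (h : pl ℓ i = pl ℓ j) : i = j := by
  have h2 : Nat.bits i = Nat.bits j := List.append_cancel_left h
  have h3 : Nat.digits 2 i = Nat.digits 2 j := by
    rw [Nat.digits_two_eq_bits, Nat.digits_two_eq_bits, h2]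
  exact Nat.digits_inj_iff.1 h3

theorem pl_length (ℓ i : ℕ) : ℓ + 1 ≤ (pl ℓ i).length := by
  simp [pl]

theorem pl_length_le {ℓ i n : ℕ} (h : i < 2 ^ n) : (pl ℓ i).length ≤ ℓ + 1 + n := by
  have h1 : (Nat.bits i).length ≤ n := by
    rw [Nat.size_eq_bits_len]
    exact Nat.size_le.2 h
  simp [pl, h1]

/-- the first `T` random bits -/
def bitsAt (ℓ T : ℕ) (A : Oracle) : List Bool := (List.range T).map (fun i => A (pl ℓ i))

theorem bitsAt_eq_ofFn (ℓ T : ℕ) (A : Oracle) :
    bitsAt ℓ T A = List.ofFn (fun i : Fin T => A (pl ℓ i)) := by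
  apply List.ext_getElem
  · simp [bitsAt]
  · intro i h1 h2
    simp [bitsAt]

/-- The input `x` (with `P` random bits, the strings up to length `ℓ` matter) keeps the promise
with respect to the oracle but the majority vote of `12 k` runs is wrong. -/
def Bad (M : Alg) (P k ℓ : ℕ) (x : List Bool) (A : Oracle) : Prop :=
  (2 / 3 ≤ accPr (VA M A) P x ∨ accPr (VA M A) P x ≤ 1 / 3) ∧
    ¬ (2 / 3 ≤ accPr (VA M A) P x ↔ maj (VA M A) P k x (bitsAt ℓ (12 * k * P) A) = true)

theorem accPr_congr {V V' : List Bool → List Bool} {P : ℕ} {x : List Bool}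
    (h : ∀ w : List Bool, w.length = P → V (pairBits w x) = V' (pairBits w x)) :
    accPr V P x = accPr V' P x := by
  unfold accPr
  have : ∀ w : Fin P → Bool, V (pairBits (List.ofFn w) x) = V' (pairBits (List.ofFn w) x) :=
    fun w => h _ (by simp)
  simp only [this]

theorem maj_congr {V V' : List Bool → List Bool} {P : ℕ} {x : List Bool}
    (h : ∀ w : List Bool, w.length = P → V (pairBits w x) = V' (pairBits w x)) (k : ℕ)
    (w : List Bool) : maj V P k x w = maj V' P k x w := by
  unfold maj
  have : ∀ i, V (pairBits (Z45.OG.blk P w i) x) =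
      V' (pairBits (Z45.OG.blk P w i) x) :=
    fun i => h _ (by simp [Z45.OG.blk])
  simp only [this]

/-- the outputs for the pairs of `x` with random strings depend only on the short strings -/
def Loc (M : Alg) (P ℓ : ℕ) (x : List Bool) : Prop :=
  ∀ (A A' : Oracle), (∀ u : List Bool, u.length ≤ ℓ → A u = A' u) →
    ∀ w : List Bool, w.length = P → VA M A (pairBits w x) = VA M A' (pairBits w x)

theorem Bad_congr {M : Alg} {P k ℓ n : ℕ} {x : List Bool} (hloc : Loc M P ℓ x)
    (hT : 12 * k * P ≤ 2 ^ n) {A A' : Oracle}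
    (h : ∀ u : List Bool, u.length ≤ ℓ + 1 + n → A u = A' u) :
    Bad M P k ℓ x A ↔ Bad M P k ℓ x A' := by
  have h1 := hloc A A' (fun u hu => h u (by omega))
  have h2 : bitsAt ℓ (12 * k * P) A = bitsAt ℓ (12 * k * P) A' := by
    refine List.map_congr_left fun i hi => ?_
    rw [List.mem_range] at hi
    exact h _ (pl_length_le (by omega))
  unfold Bad
  rw [accPr_congr h1, maj_congr h1, h2]

open Classical in
theorem prob_bad {M : Alg} {P k ℓ N : ℕ} {x : List Bool} (hloc : Loc M P ℓ x)
    (hN : ∀ i < 12 * k * P, idx (pl ℓ i) < N) :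
    Ex unif (fun a : Fin N → Bool => if Bad M P k ℓ x (orc N a) then (1 : ℝ) else 0) ≤
      (1 / 2) ^ k := by
  let pos : Fin (12 * k * P) → Fin N := fun i => ⟨idx (pl ℓ i), hN i i.isLt⟩
  have hpos : Function.Injective pos := by
    intro i j hij
    have h1 : idx (pl ℓ i) = idx (pl ℓ j) := congrArg Fin.val hij
    have h2 := congrArg str h1
    rw [str_idx, str_idx] at h2
    exact Fin.ext (pl_inj h2)
  let B : Finset (Fin N) := univ.image pos
  rw [← Ex_mix B]
  have hconst : Ex unif (fun _ : Fin N → Bool => ((1 : ℝ) / 2) ^ k) = (1 / 2) ^ k :=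
    Ex_const unif_sum _
  rw [← hconst]
  refine Ex_mono unif_nonneg fun a => ?_
  -- short strings are not changed
  have hshort : ∀ b : Fin N → Bool, ∀ u : List Bool, u.length ≤ ℓ →
      orc N (mix B b a) u = orc N a u := by
    intro b u hu
    unfold orc
    split_ifs with h
    · unfold mix
      rw [if_neg]
      intro hB
      obtain ⟨i, _, hi⟩ := Finset.mem_image.1 hB
      have h1 : idx (pl ℓ i) = idx u := congrArg Fin.val hi
      have h2 := congrArg str h1
      rw [str_idx, str_idx] at h2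
      have h3 := pl_length ℓ i
      rw [h2] at h3
      omega
    · rfl
  have hVA := fun b => hloc _ _ (hshort b)
  have hbits : ∀ b : Fin N → Bool, bitsAt ℓ (12 * k * P) (orc N (mix B b a)) =
      List.ofFn (fun i : Fin (12 * k * P) => b (pos i)) := by
    intro b
    rw [bitsAt_eq_ofFn]
    congr 1
    funext i
    unfold orc
    rw [dif_pos (hN i i.isLt)]
    change mix B b a (pos i) = _
    unfold mix
    rw [if_pos (Finset.mem_image_of_mem _ (Finset.mem_univ _))]
  have hBad : ∀ b : Fin N → Bool, Bad M P k ℓ x (orc N (mix B b a)) ↔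
      (2 / 3 ≤ accPr (VA M (orc N a)) P x ∨ accPr (VA M (orc N a)) P x ≤ 1 / 3) ∧
      ¬ (2 / 3 ≤ accPr (VA M (orc N a)) P x ↔ maj (VA M (orc N a)) P k x
        (List.ofFn (fun i : Fin (12 * k * P) => b (pos i))) = true) := by
    intro b
    unfold Bad
    rw [accPr_congr (hVA b), maj_congr (hVA b), hbits b]
  simp only [hBad]
  set V := VA M (orc N a) with hV
  have hmarg := Ex_inj pos hpos (fun c : Fin (12 * k * P) → Bool =>
    if (2 / 3 ≤ accPr V P x ∨ accPr V P x ≤ 1 / 3) ∧
      ¬ (2 / 3 ≤ accPr V P x ↔ maj V P k x (List.ofFn c) = true) then (1 : ℝ) else 0)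
  refine le_trans (le_of_eq ?_) (le_trans (le_of_eq hmarg) ?_)
  · exact Ex_inst _ _ _ _
  by_cases hprom : 2 / 3 ≤ accPr V P x ∨ accPr V P x ≤ 1 / 3
  · set L : Set (List Bool) := {y | 2 / 3 ≤ accPr V P y} with hL
    have h1 : x ∈ L → 2 / 3 ≤ accPr V P x := fun h => h
    have h2 : x ∉ L → accPr V P x ≤ 1 / 3 := fun h => hprom.resolve_left h
    have h5 := card_wrong h1 h2 k
    rw [Nat.card_eq_fintype_card, Fintype.card_subtype] at h5
    have h6 : (2 : ℝ) ^ k * ((Finset.univ.filter (fun f : Fin (12 * k * P) → Bool =>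
        ¬ (x ∈ L ↔ maj V P k x (List.ofFn f) = true))).card : ℕ) ≤ 2 ^ (12 * k * P) := by
      exact_mod_cast h5
    have h7 : (((Finset.univ.filter (fun f : Fin (12 * k * P) → Bool =>
        ¬ (x ∈ L ↔ maj V P k x (List.ofFn f) = true))).card : ℕ) : ℝ) *
        2 ^ (-((12 * k * P : ℕ) : ℝ)) ≤ (1 / 2) ^ k := by
      rw [Real.rpow_neg (by norm_num), Real.rpow_natCast, ← div_eq_mul_inv,
        div_le_iff₀ (by positivity), one_div, inv_pow, ← div_eq_inv_mul,
        le_div_iff₀ (by positivity)]
      linarith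
    refine le_trans (le_of_eq ?_) h7
    refine (Ex_eq_card _).trans ?_
    congr 2
    refine congrArg Finset.card (Finset.ext fun a => ?_)
    simp only [Finset.mem_filter, Finset.mem_univ, true_and, hprom, hL, Set.mem_ofPred_eq]
  · simp only [hprom, false_and, if_false]
    rw [Ex_const unif_sum]
    positivity

end Pool.Agent.Helper38K3.ZG
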