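import Pool.Agent.Helper38K3.ZG.Defs
import Pool.Agent.Helper38K3.ZG.Marg
import Pool.Agent.H620R2.GaugeX.X9
import Pool.Agent.H620R2.Gauge.C

/-!
# The null half: bounded error randomized polynomial time
-/

namespace Pool.Agent.Helper38K3.ZG

open Pool.Agent.NPC Pool.Agent.H620R2.Gauge H568R2 Finset Pool.Agent.Z45.OG

theorem getD_bitsAt (ℓ T : ℕ) (A : Oracle) {i : ℕ} (hi : i < T) :
    (bitsAt ℓ T A).getD i false = A (pl ℓ i) := by
  rw [List.getD_eq_getElem _ _ (by simpa [bitsAt] using hi)]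
  simp [bitsAt]

theorem blk_bitsAt (ℓ P k : ℕ) (A : Oracle) {i : ℕ} (hi : i < 12 * k) :
    Z45.OG.blk P (bitsAt ℓ (12 * k * P) A) i =
      ((List.range P).map (fun j => pl ℓ (j + P * i))).map A := by
  unfold Z45.OG.blk
  rw [List.map_map]
  refine List.map_congr_left fun j hj => ?_
  rw [List.mem_range] at hj
  rw [getD_bitsAt]
  · rfl
  · calc j + P * i < P + P * i := by omega
      _ = P * (i + 1) := by ring
      _ ≤ P * (12 * k) := Nat.mul_le_mul_left _ hi
      _ = 12 * k * P := by ring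

theorem maj_eq (V : List Bool → List Bool) (P k ℓ : ℕ) (A : Oracle) (x : List Bool) :
    maj V P k x (bitsAt ℓ (12 * k * P) A) =
      decide (12 * k ≤ 2 * (((List.range (12 * k)).map (fun i => decide (V (pairBits
        (((List.range P).map (fun j => pl ℓ (j + P * i))).map A) x) = [true]))).filter
          (fun b => b)).length) := by
  unfold maj
  rw [List.filter_map, List.length_map]
  have h : (List.range (12 * k)).filter (fun i =>
      decide (V (pairBits (Z45.OG.blk P (bitsAt ℓ (12 * k * P) A) i) x) = [true])) =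
      (List.range (12 * k)).filter ((fun b => b) ∘ (fun i => decide (V (pairBits
        (((List.range P).map (fun j => pl ℓ (j + P * i))).map A) x) = [true]))) := by
    refine List.filter_congr fun i hi => ?_
    rw [List.mem_range] at hi
    rw [blk_bitsAt ℓ P k A hi]
    rfl
  rw [h]

/-- the majority algorithm, with a table for the short inputs -/
theorem isFP_vote {A : Oracle} {V : List Bool → List Bool} (hV : IsFP A V)
    (p kk ll : Polynomial ℕ) (n0 : ℕ) (tbl : List (List Bool)) :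
    IsFP A (fun x => [if x.length < n0 then decide (x ∈ tbl) else
      maj V (p.eval x.length) (kk.eval x.length) x (bitsAt (ll.eval x.length)
        (12 * kk.eval x.length * p.eval x.length) A)]) := by
  have hlen : UPoly (fun q : ℕ × List Bool => q.2.length) := UPoly.length (Poly.snd Poly.id)
  have hQ : Poly (fun q : ℕ × List Bool => (List.range (p.eval q.2.length)).map
      (fun j => pl (ll.eval q.2.length) (j + p.eval q.2.length * q.1))) := by
    refine NPC.Poly.map (F := fun (q : ℕ × List Bool) j =>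
      pl (ll.eval q.2.length) (j + p.eval q.2.length * q.1)) (hlen.eval p).range ?_
    have h0 : Poly (fun z : (ℕ × List Bool) × ℕ => z.1) := Poly.fst Poly.id
    unfold pl
    refine Poly.append ?_ (Poly.natBits (Poly.add (Poly.snd Poly.id)
      (Poly.mul ((hlen.eval p).toPoly.comp h0) (Poly.fst h0))))
    refine (NPC.Poly.map (F := fun _ _ => true)
      (((hlen.eval ll).comp h0).add (UPoly.const 1)) (NPC.Poly.const true)).congr fun a => ?_
    simp
  have hW : Poly (fun q : (ℕ × List Bool) × List Bool => pairBits q.2 q.1.2) :=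
    H622R2.poly_pairBits (Poly.snd Poly.id) (Poly.snd (Poly.fst Poly.id))
  have hlen2 : UPoly (fun q : List Bool × List Bool => q.1.length) :=
    UPoly.length (Poly.fst Poly.id)
  have hH : Poly (fun q : List Bool × List Bool => [if q.1.length < n0 then decide (q.1 ∈ tbl) else
      decide (12 * kk.eval q.1.length ≤ 2 * (q.2.filter (fun b => b)).length)]) := by
    refine Poly.cons ?_ (NPC.Poly.const [])
    refine Poly.ite (Poly.decide_lt hlen2.toPoly (NPC.Poly.const n0))
      ((Poly.decide_mem (Poly.fst Poly.id) (NPC.Poly.const tbl)).congr fun a => by congr) ?_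
    refine Poly.decide_le (Poly.mul (NPC.Poly.const 12) (hlen2.eval kk).toPoly)
      (Poly.mul (NPC.Poly.const 2) (Poly.length (Poly.filter
        (p := fun (_ : List Bool × List Bool) (b : Bool) => b) (Poly.snd Poly.id)
        (Poly.snd Poly.id))))
  have h := IsFP.votes hV (Polynomial.C 12 * kk) hQ hW hH
  refine (congrArg (IsFP A) (funext fun x => ?_)).mp h
  simp only [Polynomial.eval_mul, Polynomial.eval_C]
  congr 1
  split_ifs with hx
  · rfl
  · rw [maj_eq]

/-- if the votes are right for all long inputs then the language is in `P` -/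
theorem isP_of_votes {A : Oracle} {V : List Bool → List Bool} (hV : IsFP A V)
    (p kk ll : Polynomial ℕ) (n0 : ℕ) {L : Set (List Bool)}
    (h : ∀ x : List Bool, n0 ≤ x.length → (x ∈ L ↔ maj V (p.eval x.length) (kk.eval x.length) x
      (bitsAt (ll.eval x.length) (12 * kk.eval x.length * p.eval x.length) A) = true)) :
    IsP A L := by
  classical
  have hfin : {x : List Bool | x.length < n0 ∧ x ∈ L}.Finite :=
    (List.finite_length_lt Bool n0).subset fun x hx => hx.1
  refine ⟨_, isFP_vote hV p kk ll n0 hfin.toFinset.toList, fun x => ?_⟩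
  by_cases hx : x.length < n0
  · simp only [hx, if_true, List.cons.injEq, and_true, decide_eq_true_eq, Finset.mem_toList,
      Set.Finite.mem_toFinset, Set.mem_ofPred_eq, true_and]
  · simp only [hx, if_false, List.cons.injEq, and_true]
    exact h x (by omega)

/-- the oracles for which the algorithm `M` with `p` random bits is a bounded error algorithm for
a language that is not in `P` -/
def XMp (M : Alg) (p : Polynomial ℕ) : Set Oracle :=
  {A | ∃ L : Set (List Bool), IsFP A (VA M A) ∧ (∀ x,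
    (x ∈ L → 2 / 3 ≤ accPr (VA M A) (p.eval x.length) x) ∧
    (x ∉ L → accPr (VA M A) (p.eval x.length) x ≤ 1 / 3)) ∧ ¬ IsP A L}

theorem subset_XMp : {A | ∃ L, IsBPP3 A L ∧ ¬ IsP A L} ⊆
    ⋃ Mp : Alg × Polynomial ℕ, XMp Mp.1 Mp.2 := by
  rintro A ⟨L, ⟨V, p, ⟨M, hM⟩, hVL⟩, hL⟩
  have hV : VA M A = V := by
    funext z
    simp [VA, hM z]
  refine Set.mem_iUnion.2 ⟨(M, p), L, ?_, ?_, hL⟩
  · exact ⟨M, fun x => by rw [hV]; exact hM x⟩
  · simp only [hV]
    exact hVL

open Classical in
theorem cover_one {M : Alg} {p q : Polynomial ℕ}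
    (hq : ∀ (x : List Bool) (P ℓ : ℕ), q.eval (2 * P + 1 + x.length) ≤ ℓ → Loc M P ℓ x)
    {f : ℕ → ℝ} {C N0 n : ℕ} (hN0 : ∀ N ≥ N0, ∃ N' ≥ N, f N' ≤ (Real.logb 2 N) ^ C)
    (hn : N0 ≤ n) (P ℓ k : ℕ) (hP : P = p.eval n) (hℓ : ℓ = q.eval (2 * P + 1 + n))
    (hk : k = 2 * n + (ℓ + n + 2) ^ C) (hT : 12 * k * P ≤ 2 ^ n) :
    ∃ S : Set (List Bool), (∀ A : Oracle, (∃ x : List Bool, x.length = n ∧ Bad M P k ℓ x A) →
      ∃ σ ∈ S, Extends A σ) ∧
    ∑' σ : S, ENNReal.ofReal (2 ^ (f σ.1.length - σ.1.length)) ≤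
      ENNReal.ofReal ((1 / 2) ^ n) := by
  obtain ⟨N, hN, hfN⟩ := hN0 (2 ^ (ℓ + n + 2)) (by
    have : ℓ + n + 2 < 2 ^ (ℓ + n + 2) := Nat.lt_two_pow_self
    omega)
  have hlog : Real.logb 2 ((2 ^ (ℓ + n + 2) : ℕ) : ℝ) = (ℓ + n + 2 : ℕ) := by
    push_cast
    rw [← Real.rpow_natCast, Real.logb_rpow (by norm_num) (by norm_num)]
    push_cast
    ring
  rw [hlog] at hfN
  have hidx : ∀ u : List Bool, u.length ≤ ℓ + 1 + n → idx u < N := by
    intro u hu
    have h1 := idx_lt u
    have h2 : 2 ^ (u.length + 1) ≤ 2 ^ (ℓ + n + 2) :=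
      Nat.pow_le_pow_right (by norm_num) (by omega)
    omega
  have hloc : ∀ x : List Bool, x.length = n → Loc M P ℓ x := by
    intro x hx
    refine hq x P ℓ ?_
    rw [hx, hℓ]
  refine cover_of_event (N := N) (fun a => ∃ v : Fin n → Bool,
    Bad M P k ℓ (List.ofFn v) (orc N a)) _ ?_ f _ ?_
  · rintro A ⟨x, hx, hbad⟩
    subst hx
    refine ⟨x.get, ?_⟩
    rw [List.ofFn_get]
    refine (Bad_congr (hloc x rfl) hT (fun u hu => ?_)).1 hbad
    exact (orc_pre (hidx u hu)).symm
  · have h1 : Ex unif (fun a : Fin N → Bool => if ∃ v : Fin n → Bool,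
        Bad M P k ℓ (List.ofFn v) (orc N a) then (1 : ℝ) else 0) ≤ 2 ^ n * (1 / 2) ^ k := by
      calc Ex unif (fun a : Fin N → Bool => if ∃ v : Fin n → Bool,
            Bad M P k ℓ (List.ofFn v) (orc N a) then (1 : ℝ) else 0)
          ≤ Ex unif (fun a : Fin N → Bool => ∑ v : Fin n → Bool,
              if Bad M P k ℓ (List.ofFn v) (orc N a) then (1 : ℝ) else 0) := by
            refine Ex_mono unif_nonneg fun a => ?_
            split_ifs with h
            · obtain ⟨v, hv⟩ := h
              calc (1 : ℝ) = if Bad M P k ℓ (List.ofFn v) (orc N a) then (1 : ℝ) else 0 := by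
                    rw [if_pos hv]
                _ ≤ _ := Finset.single_le_sum (f := fun v : Fin n → Bool =>
                    if Bad M P k ℓ (List.ofFn v) (orc N a) then (1 : ℝ) else 0)
                    (fun v _ => by split_ifs <;> norm_num) (Finset.mem_univ v)
            · exact Finset.sum_nonneg fun v _ => by split_ifs <;> norm_num
        _ = ∑ v : Fin n → Bool, Ex unif (fun a : Fin N → Bool =>
              if Bad M P k ℓ (List.ofFn v) (orc N a) then (1 : ℝ) else 0) := Ex_sum _ _ _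
        _ ≤ ∑ _v : Fin n → Bool, (1 / 2 : ℝ) ^ k := by
            refine Finset.sum_le_sum fun v _ => ?_
            exact prob_bad (hloc _ (by simp)) (fun i hi => hidx _ (pl_length_le (by omega)))
        _ = 2 ^ n * (1 / 2) ^ k := by simp
    have h2 : (2 : ℝ) ^ f N ≤ 2 ^ (ℓ + n + 2) ^ C := by
      rw [← Real.rpow_natCast]
      refine Real.rpow_le_rpow_of_exponent_le (by norm_num) ?_
      refine hfN.trans (le_of_eq ?_)
      push_cast
      ring
    refine le_trans (mul_le_mul (le_trans (le_of_eq ?_) h1) h2 (by positivity)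
      (by positivity)) ?_
    · refine congrArg (Ex unif) (funext fun a => ?_)
      congr
    · have e0 : ((1 : ℝ) / 2) ^ (2 * n) = (1 / 2) ^ n * (1 / 2) ^ n := by
        rw [two_mul, pow_add]
      have e1 : (2 : ℝ) ^ n * (1 / 2) ^ n = 1 := by
        rw [← mul_pow]; norm_num
      have e2 : ((1 : ℝ) / 2) ^ (ℓ + n + 2) ^ C * 2 ^ (ℓ + n + 2) ^ C = 1 := by
        rw [← mul_pow]; norm_num
      rw [hk, pow_add, e0]
      calc (2 : ℝ) ^ n * ((1 / 2) ^ n * (1 / 2) ^ n * (1 / 2) ^ (ℓ + n + 2) ^ C) *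
            2 ^ (ℓ + n + 2) ^ C
          = (2 ^ n * (1 / 2) ^ n) * (1 / 2) ^ n * ((1 / 2) ^ (ℓ + n + 2) ^ C *
            2 ^ (ℓ + n + 2) ^ C) := by ring
        _ ≤ (1 / 2) ^ n := by rw [e1, e2, one_mul, mul_one]

theorem null_XMp {f : ℕ → ℝ} (hf : Cond1 f) (M : Alg) (p : Polynomial ℕ) :
    Null f (XMp M p) := by
  obtain ⟨C, hC⟩ := hf
  obtain ⟨N0, hN0⟩ := Filter.eventually_atTop.1 hC
  obtain ⟨q, hq⟩ := M.out_local
  have hq' : ∀ (x : List Bool) (P ℓ : ℕ), q.eval (2 * P + 1 + x.length) ≤ ℓ → Loc M P ℓ x := by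
    intro x P ℓ hℓ A A' hA w hw
    obtain ⟨Q, _, hQ2, hQ3⟩ := hq A (pairBits w x)
    unfold VA
    rw [hQ3 A' fun u hu => ?_]
    refine (hA u ((hQ2 u hu).trans ?_)).symm
    rw [length_pairBits, hw]
    exact hℓ
  -- the polynomials
  set ll : Polynomial ℕ := q.comp (Polynomial.C 2 * p + 1 + Polynomial.X) with hll
  set kk : Polynomial ℕ := Polynomial.C 2 * Polynomial.X + (ll + Polynomial.X + Polynomial.C 2) ^ C
    with hkk
  obtain ⟨n1, hn1⟩ := X9.exists_n0 (Polynomial.C 12 * kk * p)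
  have elle : ∀ n, ll.eval n = q.eval (2 * p.eval n + 1 + n) := by
    intro n
    rw [hll]
    simp
  have ekke : ∀ n, kk.eval n = 2 * n + (ll.eval n + n + 2) ^ C := by
    intro n
    rw [hkk]
    simp
  have eT : ∀ n, (Polynomial.C 12 * kk * p).eval n = 12 * kk.eval n * p.eval n := by
    intro n
    simp
  intro δ hδ
  obtain ⟨e, he⟩ := exists_pow_lt_of_lt_one hδ (show (1 / 2 : ℝ) < 1 by norm_num)
  set n0 : ℕ := max (max N0 n1) (e + 1) with hn0
  have hcov := fun m : ℕ => cover_one hq' (p := p) hN0 (n := n0 + m) (by omega)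
    (p.eval (n0 + m)) (ll.eval (n0 + m)) (kk.eval (n0 + m)) rfl (elle _) (ekke _) (by
      rw [← eT]
      exact hn1 _ (by omega))
  choose S hS hSs using hcov
  refine ⟨⋃ m, S m, ?_, ?_⟩
  · rintro A ⟨L, hFP, hL, hnP⟩
    by_contra hcon
    push Not at hcon
    apply hnP
    refine isP_of_votes hFP p kk ll n0 (L := L) fun x hx => ?_
    obtain ⟨m, hm⟩ := Nat.exists_eq_add_of_le hx
    have h1 : ¬ Bad M (p.eval (n0 + m)) (kk.eval (n0 + m)) (ll.eval (n0 + m)) x A := by
      intro hbad
      obtain ⟨σ, hσ, hE⟩ := hS m A ⟨x, hm, hbad⟩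
      exact hcon σ (Set.mem_iUnion.2 ⟨m, hσ⟩) hE
    rw [← hm] at h1
    unfold Bad at h1
    have h2 : x ∈ L ↔ 2 / 3 ≤ accPr (VA M A) (p.eval x.length) x := by
      constructor
      · exact (hL x).1
      · intro h3
        by_contra h4
        have h5 := (hL x).2 h4
        linarith
    have h3 : 2 / 3 ≤ accPr (VA M A) (p.eval x.length) x ∨
        accPr (VA M A) (p.eval x.length) x ≤ 1 / 3 := by
      by_cases h4 : x ∈ L
      · exact Or.inl ((hL x).1 h4)
      · exact Or.inr ((hL x).2 h4)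
    rw [h2]
    by_contra h4
    exact h1 ⟨h3, h4⟩
  · refine (ENNReal.tsum_iUnion_le_tsum (fun σ : List Bool =>
      ENNReal.ofReal (2 ^ (f σ.length - σ.length))) S).trans ?_
    refine (ENNReal.tsum_le_tsum hSs).trans ?_
    have hsum : HasSum (fun m : ℕ => ((1 : ℝ) / 2) ^ (n0 + m)) ((1 / 2) ^ n0 * 2) := by
      have h1 := (hasSum_geometric_of_lt_one (r := (1 / 2 : ℝ)) (by norm_num) (by norm_num)).mul_left
        (((1 : ℝ) / 2) ^ n0)
      have h2 : ((1 : ℝ) - 1 / 2)⁻¹ = 2 := by norm_num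
      rw [h2] at h1
      simpa only [pow_add] using h1
    rw [← ENNReal.ofReal_tsum_of_nonneg (fun m => by positivity) hsum.summable, hsum.tsum_eq]
    apply ENNReal.ofReal_le_ofReal
    have h1 : ((1 : ℝ) / 2) ^ n0 ≤ (1 / 2) ^ (e + 1) :=
      pow_le_pow_of_le_one (by norm_num) (by norm_num) (le_max_right _ _)
    rw [pow_succ] at h1
    linarith

theorem null_bpp {f : ℕ → ℝ} (hf : Cond1 f) : Null f {A | ∃ L, IsBPP3 A L ∧ ¬ IsP A L} := by
  have h2 : Countable (Polynomial ℕ) := CC.poly_countable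
  exact (null_iUnion (fun Mp : Alg × Polynomial ℕ => XMp Mp.1 Mp.2)
    (fun Mp => null_XMp hf Mp.1 Mp.2)).mono subset_XMp

end Pool.Agent.Helper38K3.ZG
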