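import Pool.Agent.Helper38K3.ZG.NonNull
import Pool.Agent.Helper38K3.ZG.NullHalf

/-!
# The gauges for which the oracles with `P ≠ ZPP`, `P ≠ RP`, `P ≠ BPP` form a null set
-/

namespace Pool.Agent.Helper38K3.ZG

open Pool.Agent.NPC Pool.Agent.H620R2.Gauge H568R2 Finset Pool.Agent.Z45.OG MeasureTheory
open Pool.Agent.H676

/-- the good oracles: no input has all its markers -/
def GS : Set Oracle := {B | ∀ x : List Bool, ∃ i < 2 * x.length + 2, B (mk x i) = false}

theorem ranO_mk (x : List Bool) (m : ℕ) :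
    ranO {B | ∀ i : Fin m, B (mk x i) = true} ≤ (2⁻¹) ^ m := by
  classical
  have h3 := ranO_cyl_le (fun i : Fin m => mk x i) (fun i j h => Fin.ext (mk_inj h).2)
    (fun a => ∀ i, a i = true)
  refine h3.trans ?_
  have h4 := Ex_eq_card (fun a : Fin m → Bool => ∀ i, a i = true)
  have h5 : (univ.filter (fun a : Fin m → Bool => ∀ i, a i = true)).card = 1 := by
    rw [Finset.card_eq_one]
    refine ⟨fun _ => true, ?_⟩
    ext a
    simp only [Finset.mem_filter, Finset.mem_univ, true_and, Finset.mem_singleton, funext_iff]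
  rw [h5, Real.rpow_neg (by norm_num), Real.rpow_natCast, Nat.cast_one, one_mul] at h4
  refine (ENNReal.ofReal_le_ofReal (le_of_eq (b := ((2 : ℝ) ^ m)⁻¹) ?_)).trans (le_of_eq ?_)
  · rw [← h4]
    refine (Ex_inst _ (instDecidableEqFin m) _ _).trans ?_
    unfold Ex
    refine Finset.sum_congr rfl fun a _ => ?_
    by_cases ha : ∀ i, a i = true
    · simp [ha]
    · simp [ha]
  · rw [← inv_pow, ENNReal.ofReal_pow (by norm_num), ENNReal.ofReal_inv_of_pos (by norm_num)]
    simp

theorem ranO_GS : 0 < ranO GS := by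
  have h1 : GSᶜ ⊆ ⋃ n : ℕ, ⋃ v : Fin n → Bool,
      {B : Oracle | ∀ i : Fin (2 * n + 2), B (mk (List.ofFn v) i) = true} := by
    intro B hB
    have h2 : ∃ x : List Bool, ∀ i < 2 * x.length + 2, B (mk x i) = true := by
      by_contra hcon
      push Not at hcon
      apply hB
      intro x
      obtain ⟨i, hi, h⟩ := hcon x
      exact ⟨i, hi, by simpa using h⟩
    obtain ⟨x, hx⟩ := h2
    refine Set.mem_iUnion.2 ⟨x.length, Set.mem_iUnion.2 ⟨x.get, ?_⟩⟩
    intro i
    rw [List.ofFn_get]
    exact hx i i.isLt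
  have h3 : ranO GSᶜ ≤ 2⁻¹ := by
    calc ranO GSᶜ ≤ ranO (⋃ n : ℕ, ⋃ v : Fin n → Bool,
          {B : Oracle | ∀ i : Fin (2 * n + 2), B (mk (List.ofFn v) i) = true}) := measure_mono h1
      _ ≤ ∑' n : ℕ, ranO (⋃ v : Fin n → Bool,
          {B : Oracle | ∀ i : Fin (2 * n + 2), B (mk (List.ofFn v) i) = true}) :=
          measure_iUnion_le _
      _ ≤ ∑' n : ℕ, (2 : ENNReal) ^ n * (2⁻¹) ^ (2 * n + 2 + 0) := by
          refine ENNReal.tsum_le_tsum fun n => ?_
          refine (measure_iUnion_fintype_le _ _).trans ?_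
          refine (Finset.sum_le_sum (g := fun _ => (2⁻¹ : ENNReal) ^ (2 * n + 2 + 0))
            fun v _ => ranO_mk _ _).trans ?_
          rw [Finset.sum_const, Finset.card_univ, nsmul_eq_mul]
          simp
      _ = (2⁻¹) ^ (0 + 1) := tsum_bound 0
      _ = 2⁻¹ := by rw [zero_add, pow_one]
  rw [pos_iff_ne_zero]
  intro h0
  have h4 : (1 : ENNReal) ≤ 2⁻¹ := by
    calc (1 : ENNReal) = ranO Set.univ := measure_univ.symm
      _ = ranO (GS ∪ GSᶜ) := by rw [Set.union_compl_self]
      _ ≤ ranO GS + ranO GSᶜ := measure_union_le _ _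
      _ ≤ 0 + 2⁻¹ := add_le_add h0.le h3
      _ = 2⁻¹ := zero_add _
  have h5 : (2⁻¹ : ENNReal) < 1 := by
    rw [ENNReal.inv_lt_one]
    norm_num
  exact absurd h4 (not_le.2 h5)

theorem phi_good {al : ℕ → Alg} (hal : Function.Surjective al) {n r : ℕ → ℕ}
    {Q : Alg → Oracle → List Bool → Finset (List Bool)} {qb : Alg → Polynomial ℕ}
    (hQ1 : ∀ (M : Alg) (A : Oracle) (x : List Bool), (Q M A x).card ≤ M.p.eval x.length)
    (hQ2 : ∀ (M : Alg) (A : Oracle) (x : List Bool), ∀ q ∈ Q M A x,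
      q.length ≤ (qb M).eval x.length)
    (hQ3 : ∀ (M : Alg) (A : Oracle) (x : List Bool), ∀ A' : Oracle,
      (∀ q ∈ Q M A x, A' q = A q) → M.out A' x = M.out A x)
    (hr : ∀ j, r j ≤ n j) (hp : ∀ j, 2 * (al j).p.eval (n j) ≤ 2 ^ r j)
    (hn : ∀ j, 4 * n j + 4 + r j + (qb (al j)).eval (n j) ≤ n (j + 1))
    {B : Oracle} (hB : B ∈ GS) :
    ∃ L, IsZPP (Phi al n r Q B) L ∧ ¬ IsP (Phi al n r Q B) L := by
  classical
  have hmono : StrictMono n := strictMono_nat_of_lt_succ (fun j => by
    have := hn j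
    omega)
  have hlt : ∀ i j, i < j → n i < n j := fun i j h => hmono h
  set A := Phi al n r Q B with hA
  have hlen : ∀ j, (xin (n j) (r j)).length = n j := fun j => length_xin (hr j)
  have hPhi : ∀ j (u : List Bool), u.length ≤ n (j + 1) → A u = stg (al j) (xin (n j) (r j)) (r j)
      (Q (al j) (base (xin (n j) (r j)) (r j) (sq al n r Q B j)) (xin (n j) (r j)))
      (sq al n r Q B j) u := by
    intro j u hu
    rw [hA, Phi_eq hr hlt (j := j + 1) (by omega)]
    rfl
  have c1 : ∀ j, ∀ i < 2 * (xin (n j) (r j)).length + 2, A (mk (xin (n j) (r j)) i) = true := by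
    intro j i hi
    have h1 := length_mk_le hi
    have h2 := hn j
    rw [hPhi j _ (by rw [hlen] at h1; omega)]
    exact stg_mk hi
  have c2 : ∀ j, ∀ (w : List Bool) (b : Bool), w.length = rk (xin (n j) (r j)) →
      (A (pairBits (xin (n j) (r j)) (true :: b :: w)) = true ↔
        b = decide (bit (al j) (xin (n j) (r j)) (r j) (sq al n r Q B j)) ∧
        pairBits (xin (n j) (r j)) (true :: b :: w) ∉
          Q (al j) (base (xin (n j) (r j)) (r j) (sq al n r Q B j)) (xin (n j) (r j))) := by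
    intro j w b hw
    rw [rk_xin] at hw
    have h2 := hn j
    rw [hPhi j _ (by
      rw [length_pairBits, List.length_cons, List.length_cons, hw, hlen]
      omega)]
    exact stg_bl hw b
  have c3 : ∀ j, (al j).out A (xin (n j) (r j)) =
      (al j).out (base (xin (n j) (r j)) (r j) (sq al n r Q B j)) (xin (n j) (r j)) := by
    intro j
    refine hQ3 _ _ _ _ fun q hq => ?_
    have h1 := hQ2 _ _ _ q hq
    have h2 := hn j
    rw [hlen] at h1
    rw [hPhi j q (by omega)]
    exact stg_mem hq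
  refine ⟨{x | ∃ j, x = xin (n j) (r j) ∧
    bit (al j) (xin (n j) (r j)) (r j) (sq al n r Q B j)}, ?_, ?_⟩
  · refine ⟨zV A, Polynomial.X, isFP_zV A, fun x => ?_⟩
    rw [Polynomial.eval_X]
    by_cases hx : ∃ j, x = xin (n j) (r j)
    · obtain ⟨j, rfl⟩ := hx
      have hrk : rk (xin (n j) (r j)) ≤ (xin (n j) (r j)).length := by
        rw [rk_xin, hlen]
        exact hr j
      have hin : (∃ i, xin (n j) (r j) = xin (n i) (r i) ∧
          bit (al i) (xin (n i) (r i)) (r i) (sq al n r Q B i)) ↔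
          bit (al j) (xin (n j) (r j)) (r j) (sq al n r Q B j) := by
        constructor
        · rintro ⟨i, hi, hb⟩
          have h1 := congrArg List.length hi
          rw [hlen, hlen] at h1
          have h2 := hmono.injective h1
          subst h2
          exact hb
        · intro hb
          exact ⟨j, rfl, hb⟩
      refine ⟨fun w hw => ?_, ?_⟩
      · have h1 := zV_true (c1 j) (c2 j) hw hrk
        rw [Set.mem_ofPred_eq, hin]
        exact ⟨fun h => of_decide_eq_true (h1.1 h), fun h => of_decide_eq_false (h1.2.1 h)⟩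
      · refine zV_prob (c1 j) (c2 j) hrk ?_
        rw [rk_xin]
        have h1 := hQ1 (al j) (base (xin (n j) (r j)) (r j) (sq al n r Q B j)) (xin (n j) (r j))
        rw [hlen] at h1
        have h2 := hp j
        omega
    · have hnot : x ∉ {x | ∃ j, x = xin (n j) (r j) ∧
          bit (al j) (xin (n j) (r j)) (r j) (sq al n r Q B j)} := by
        rintro ⟨j, hj, _⟩
        exact hx ⟨j, hj⟩
      have hm : ∃ i < 2 * x.length + 2, A (mk x i) = false := by
        obtain ⟨i, hi, h1⟩ := hB x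
        refine ⟨i, hi, ?_⟩
        rw [hA, Phi_off, h1]
        rintro ⟨j, ⟨i', _, h2⟩ | ⟨b, w, _, h2⟩⟩
        · exact hx ⟨j, (mk_inj h2).1⟩
        · have h3 := (pairBits_inj h2).2
          simp at h3
      have hz : ∀ w, zV A (pairBits w x) = [false] := zV_off hm
      refine ⟨fun w _ => ⟨fun h => ?_, fun _ => hnot⟩, ?_⟩
      · rw [hz w] at h
        simp at h
      · simp only [hz, or_true]
        have h1 : Nat.card {w : Fin x.length → Bool // True} = 2 ^ x.length := by
          rw [Nat.card_eq_fintype_card, Fintype.card_subtype]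
          simp
        rw [h1]
        push_cast
        rw [div_self (by positivity)]
        norm_num
  · rintro ⟨V, ⟨M, hM⟩, hV⟩
    obtain ⟨j, rfl⟩ := hal M
    have h1 := hV (xin (n j) (r j))
    have h2 := c3 j
    rw [hM (xin (n j) (r j))] at h2
    by_cases hb : bit (al j) (xin (n j) (r j)) (r j) (sq al n r Q B j)
    · have h3 := h1.1 ⟨j, rfl, hb⟩
      apply hb
      rw [← h2, h3]
    · have h3 : V (xin (n j) (r j)) = [true] := by
        unfold bit at hb
        rw [not_not, ← h2, Option.some.injEq] at hb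
        exact hb
      obtain ⟨i, hi, hb'⟩ := h1.2 h3
      have h4 := congrArg List.length hi
      rw [hlen, hlen] at h4
      have h5 := hmono.injective h4
      subst h5
      exact hb hb'

theorem exists_const_ge {f : ℕ → ℝ} (hf : ¬ Cond1 f) : ∃ c : ℝ, 0 ≤ c ∧ ∀ N, 0 ≤ f N + c := by
  unfold Cond1 at hf
  push Not at hf
  obtain ⟨N0, h⟩ := (hf 0).exists
  refine ⟨∑ N ∈ range N0, |f N|, Finset.sum_nonneg fun _ _ => abs_nonneg _, fun N => ?_⟩
  by_cases hN : N < N0
  · have h1 : |f N| ≤ ∑ N ∈ range N0, |f N| :=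
      Finset.single_le_sum (f := fun N => |f N|) (fun _ _ => abs_nonneg _) (Finset.mem_range.2 hN)
    have h2 := neg_abs_le (f N)
    linarith
  · have h1 := h N (by omega)
    have h2 : 0 ≤ ∑ N ∈ range N0, |f N| := Finset.sum_nonneg fun _ _ => abs_nonneg _
    rw [pow_zero] at h1
    linarith

theorem not_null_zpp {f : ℕ → ℝ} (hf : ¬ Cond1 f) : ¬ Null f {A | ∃ L, IsZPP A L ∧ ¬ IsP A L} := by
  classical
  obtain ⟨al, hal⟩ := exists_alg
  choose qb Q hQ1 hQ2 hQ3 using fun M : Alg => M.out_local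
  obtain ⟨n, r, hr, hp, hn, hT⟩ := exists_stages hf al qb
  obtain ⟨c, hc0, hc⟩ := exists_const_ge hf
  have hlt : ∀ i j, i < j → n i < n j := by
    have hmono : StrictMono n := strictMono_nat_of_lt_succ (fun j => by
      have := hn j
      omega)
    exact fun i j h => hmono h
  refine not_null_of f GS ranO_GS (Phi al n r Q) (Tall n r) (fun B y hy => Phi_off hy) c ?_ _ ?_
  · intro N
    exact count hr hlt hT hc0 hc N
  · intro B hB
    exact phi_good hal hQ1 hQ2 hQ3 hr hp hn hB

end Pool.Agent.Helper38K3.ZG
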