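import Pool.Agent.Helper38K3.ZG.Stage

/-!
# The non-null half: the zero error algorithm
-/

namespace Pool.Agent.Helper38K3.ZG

open Pool.Agent.NPC Pool.Agent.H620R2.Gauge H568R2 Finset Pool.Agent.Z45.OG

open Classical in
theorem zV_eq (A : Oracle) (w x : List Bool) : zV A (pairBits w x) =
    if ∀ i < 2 * x.length + 2, A (mk x i) = true then
      if A (pairBits x (true :: true :: w.take (rk x))) = true then [true] else
        if A (pairBits x (true :: false :: w.take (rk x))) = true then [false] else []
    else [false] := by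
  unfold zV ques answ
  simp only [unpair_pairBits, List.map_cons, List.tail_cons, List.head?_cons, List.map_map,
    List.all_map, Option.some.injEq]
  have h : ((List.range (2 * x.length + 2)).all ((fun b => b) ∘ A ∘ fun i => mk x i) = true) ↔
      ∀ i < 2 * x.length + 2, A (mk x i) = true := by
    rw [List.all_eq_true]
    simp only [List.mem_range, Function.comp_apply]
  by_cases h1 : ∀ i < 2 * x.length + 2, A (mk x i) = true
  · rw [if_pos (h.2 h1), if_pos h1]
  · rw [if_neg (fun h2 => h1 (h.1 h2)), if_neg h1]

theorem card_take {n r : ℕ} (hr : r ≤ n) (E : List Bool → Prop) :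
    (Nat.card {w : Fin n → Bool // E ((List.ofFn w).take r)} : ℝ) / 2 ^ n =
      (Nat.card {v : Fin r → Bool // E (List.ofFn v)} : ℝ) / 2 ^ r := by
  classical
  have h1 := Ex_inj (Fin.castLE hr) (Fin.castLE_injective hr) (fun v : Fin r → Bool =>
    if E (List.ofFn v) then (1 : ℝ) else 0)
  have h2 : ∀ w : Fin n → Bool, List.ofFn (fun i : Fin r => w (Fin.castLE hr i)) =
      (List.ofFn w).take r := by
    intro w
    apply List.ext_getElem
    · simp [hr]
    · intro i _ _
      simp
  simp only [h2] at h1
  have h3 := Ex_eq_card (fun w : Fin n → Bool => E ((List.ofFn w).take r))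
  have h4 := Ex_eq_card (fun v : Fin r → Bool => E (List.ofFn v))
  have h5 : Nat.card {w : Fin n → Bool // E ((List.ofFn w).take r)} =
      (univ.filter (fun w : Fin n → Bool => E ((List.ofFn w).take r))).card := by
    rw [Nat.card_eq_fintype_card, Fintype.card_subtype]
  have h6 : Nat.card {v : Fin r → Bool // E (List.ofFn v)} =
      (univ.filter (fun v : Fin r → Bool => E (List.ofFn v))).card := by
    rw [Nat.card_eq_fintype_card, Fintype.card_subtype]
  rw [h3, h4] at h1
  rw [h5, h6, div_eq_mul_inv, div_eq_mul_inv]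
  rw [Real.rpow_neg (by norm_num), Real.rpow_natCast, Real.rpow_neg (by norm_num),
    Real.rpow_natCast] at h1
  exact h1

theorem card_ge {x : List Bool} {r : ℕ} {β : Bool} {Q : Finset (List Bool)}
    (hQ : 2 * Q.card ≤ 2 ^ r) :
    (1 : ℝ) / 2 ≤ (Nat.card {v : Fin r → Bool //
      pairBits x (true :: β :: List.ofFn v) ∉ Q} : ℝ) / 2 ^ r := by
  classical
  have h6 : Nat.card {v : Fin r → Bool // pairBits x (true :: β :: List.ofFn v) ∉ Q} =
      (univ.filter (fun v : Fin r → Bool =>
        pairBits x (true :: β :: List.ofFn v) ∉ Q)).card := by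
    rw [Nat.card_eq_fintype_card, Fintype.card_subtype]
  have h7 := Finset.card_filter_add_card_filter_not (s := (Finset.univ : Finset (Fin r → Bool)))
    (fun v : Fin r → Bool => pairBits x (true :: β :: List.ofFn v) ∈ Q)
  have h8 : (univ.filter (fun v : Fin r → Bool =>
      pairBits x (true :: β :: List.ofFn v) ∈ Q)).card ≤ Q.card := by
    refine Finset.card_le_card_of_injOn (fun v => pairBits x (true :: β :: List.ofFn v)) ?_ ?_
    · intro v hv
      rw [Finset.coe_filter] at hv
      exact hv.2
    · intro v _ v' _ h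
      have h1 := (pairBits_inj h).2
      simp only [List.cons.injEq, true_and] at h1
      exact List.ofFn_injective h1
  have h9 : (Finset.univ : Finset (Fin r → Bool)).card = 2 ^ r := by simp
  rw [h6, le_div_iff₀ (by positivity)]
  have h10 : 2 ^ r ≤ 2 * (univ.filter (fun v : Fin r → Bool =>
        pairBits x (true :: β :: List.ofFn v) ∉ Q)).card := by
    rw [h9] at h7
    omega
  have h11 : ((2 ^ r : ℕ) : ℝ) ≤ ((2 * (univ.filter (fun v : Fin r → Bool =>
        pairBits x (true :: β :: List.ofFn v) ∉ Q)).card : ℕ) : ℝ) := by exact_mod_cast h10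
  push_cast at h11
  linarith

section

variable {A : Oracle} {x : List Bool} {β : Bool} {Q : Finset (List Bool)}

theorem zV_true (hmk : ∀ i < 2 * x.length + 2, A (mk x i) = true)
    (hbl : ∀ (w : List Bool) (b : Bool), w.length = rk x →
      (A (pairBits x (true :: b :: w)) = true ↔ b = β ∧ pairBits x (true :: b :: w) ∉ Q))
    {w : List Bool} (hw : w.length = x.length) (hr : rk x ≤ x.length) :
    (zV A (pairBits w x) = [true] → β = true) ∧ (zV A (pairBits w x) = [false] → β = false) ∧
      ((zV A (pairBits w x) = [true] ∨ zV A (pairBits w x) = [false]) ↔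
        pairBits x (true :: β :: w.take (rk x)) ∉ Q) := by
  have hl : (w.take (rk x)).length = rk x := by
    rw [List.length_take, hw, min_eq_left hr]
  have h1 := hbl (w.take (rk x)) true hl
  have h2 := hbl (w.take (rk x)) false hl
  rw [zV_eq, if_pos hmk]
  cases β with
  | true =>
    simp only [true_and, Bool.false_eq_true, false_and, iff_false] at h1 h2
    simp only [h1, h2, if_false]
    by_cases h3 : pairBits x (true :: true :: w.take (rk x)) ∈ Q
    · simp [h3]
    · simp [h3]
  | false =>
    simp only [true_and, Bool.true_eq_false, false_and, iff_false] at h1 h2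
    simp only [h1, h2, if_false]
    by_cases h3 : pairBits x (true :: false :: w.take (rk x)) ∈ Q
    · simp [h3]
    · simp [h3]

theorem zV_prob (hmk : ∀ i < 2 * x.length + 2, A (mk x i) = true)
    (hbl : ∀ (w : List Bool) (b : Bool), w.length = rk x →
      (A (pairBits x (true :: b :: w)) = true ↔ b = β ∧ pairBits x (true :: b :: w) ∉ Q))
    (hr : rk x ≤ x.length) (hQ : 2 * Q.card ≤ 2 ^ rk x) :
    (1 : ℝ) / 2 ≤ (Nat.card {w : Fin x.length → Bool //
      zV A (pairBits (List.ofFn w) x) = [true] ∨ zV A (pairBits (List.ofFn w) x) = [false]} : ℝ) /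
      2 ^ x.length := by
  have h1 : ∀ w : Fin x.length → Bool, (zV A (pairBits (List.ofFn w) x) = [true] ∨
      zV A (pairBits (List.ofFn w) x) = [false]) ↔
      pairBits x (true :: β :: (List.ofFn w).take (rk x)) ∉ Q :=
    fun w => (zV_true hmk hbl (by simp) hr).2.2
  simp only [h1]
  rw [card_take hr (fun v => pairBits x (true :: β :: v) ∉ Q)]
  exact card_ge hQ

theorem zV_off (hmk : ∃ i < 2 * x.length + 2, A (mk x i) = false) (w : List Bool) :
    zV A (pairBits w x) = [false] := by
  rw [zV_eq, if_neg]
  intro h
  obtain ⟨i, hi, h1⟩ := hmk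
  rw [h i hi] at h1
  exact absurd h1 (by simp)

end

end Pool.Agent.Helper38K3.ZG
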