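import Pool.Agent.Helper38K3.ZG.Choose
import Pool.Agent.Helper38K3.ZG.Zpp

/-!
# The non-null half: the construction
-/

namespace Pool.Agent.Helper38K3.ZG

open Pool.Agent.NPC Pool.Agent.H620R2.Gauge H568R2 Finset Pool.Agent.Z45.OG MeasureTheory
open Pool.Agent.H676

/-- the input of length `n` with `r` ones -/
def xin (n r : ℕ) : List Bool := List.replicate r true ++ List.replicate (n - r) false

theorem length_xin {n r : ℕ} (h : r ≤ n) : (xin n r).length = n := by
  unfold xin
  rw [List.length_append, List.length_replicate, List.length_replicate]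
  omega

theorem rk_xin (n r : ℕ) : rk (xin n r) = r := by
  unfold xin rk
  rw [List.filter_append, List.length_append]
  simp

/-- the strings of a stage -/
def TT (x : List Bool) (r : ℕ) : Set (List Bool) := {y | IsMk x y ∨ ∃ b, IsBl x r b y}

theorem length_TT {x : List Bool} {r : ℕ} {y : List Bool} (h : y ∈ TT x r) :
    2 * x.length + 1 ≤ y.length ∧ y.length ≤ 4 * x.length + 4 + r := by
  rcases h with ⟨i, hi, rfl⟩ | ⟨b, w, hw, rfl⟩
  · have := length_mk_le hi
    refine ⟨?_, by omega⟩
    unfold mk
    rw [length_pairBits]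
    omega
  · rw [length_pairBits, List.length_cons, List.length_cons, hw]
    omega

/-- there are few strings in a stage -/
theorem TT_card (x : List Bool) (r : ℕ) : ∃ F : Finset (List Bool), TT x r ⊆ F ∧
    F.card ≤ tot x.length r := by
  classical
  refine ⟨((range (2 * x.length + 2)).image (mk x)) ∪
    ((univ : Finset (Bool × (Fin r → Bool))).image (fun p =>
      pairBits x (true :: p.1 :: List.ofFn p.2))), ?_, ?_⟩
  · rintro y (⟨i, hi, rfl⟩ | ⟨b, w, hw, rfl⟩)
    · rw [Finset.mem_coe, Finset.mem_union]
      exact Or.inl (Finset.mem_image_of_mem _ (Finset.mem_range.2 hi))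
    · rw [Finset.mem_coe, Finset.mem_union]
      subst hw
      refine Or.inr (Finset.mem_image.2 ⟨(b, w.get), Finset.mem_univ _, ?_⟩)
      simp only
      rw [List.ofFn_get]
  · refine (Finset.card_union_le _ _).trans ?_
    unfold tot
    refine Nat.add_le_add (Finset.card_image_le.trans (by rw [Finset.card_range])) ?_
    refine Finset.card_image_le.trans ?_
    rw [Finset.card_univ, Fintype.card_prod, Fintype.card_bool, Fintype.card_fun,
      Fintype.card_bool, Fintype.card_fin, pow_succ]
    omega

section

variable (al : ℕ → Alg) (n r : ℕ → ℕ) (Q : Alg → Oracle → List Bool → Finset (List Bool))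

/-- the oracles of the stages -/
noncomputable def sq (B : Oracle) : ℕ → Oracle
  | 0 => B
  | j + 1 => stg (al j) (xin (n j) (r j)) (r j)
      (Q (al j) (base (xin (n j) (r j)) (r j) (sq B j)) (xin (n j) (r j))) (sq B j)

/-- the final oracle -/
noncomputable def Phi (B : Oracle) : Oracle := fun u => sq al n r Q B (u.length + 1) u

variable {al n r Q}

theorem sq_off {B : Oracle} {j : ℕ} {y : List Bool} (h : y ∉ TT (xin (n j) (r j)) (r j)) :
    sq al n r Q B (j + 1) y = sq al n r Q B j y := by
  rw [sq]
  apply stg_off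
  · exact fun h1 => h (Or.inl h1)
  · exact fun b h1 => h (Or.inr ⟨b, h1⟩)

theorem sq_stable {B : Oracle} (hr : ∀ j, r j ≤ n j) {j : ℕ} {u : List Bool}
    (h : ∀ i, j ≤ i → u.length < 2 * n i + 1) : ∀ m ≥ j,
    sq al n r Q B m u = sq al n r Q B j u := by
  intro m hm
  induction m, hm using Nat.le_induction with
  | base => rfl
  | succ m hm ih =>
    rw [← ih]
    apply sq_off
    intro hT
    have h1 := (length_TT hT).1
    rw [length_xin (hr m)] at h1
    have := h m hm
    omega

variable (hr : ∀ j, r j ≤ n j) (hn : ∀ i j, i < j → n i < n j)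

include hr hn in
theorem Phi_eq {B : Oracle} {j : ℕ} {u : List Bool} (h : u.length < 2 * n j + 1) :
    Phi al n r Q B u = sq al n r Q B j u := by
  have hmono : ∀ i j, i ≤ j → n i ≤ n j := by
    intro i j hij
    rcases Nat.lt_or_eq_of_le hij with h1 | h1
    · exact (hn i j h1).le
    · rw [h1]
  have hid : ∀ j, j ≤ n j := by
    intro j
    induction j with
    | zero => omega
    | succ j ih =>
      have := hn j (j + 1) (by omega)
      omega
  have h1 : ∀ i, u.length + 1 ≤ i → u.length < 2 * n i + 1 := by
    intro i hi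
    have := hid i
    omega
  have h2 : ∀ i, j ≤ i → u.length < 2 * n i + 1 := by
    intro i hi
    have := hmono j i hi
    omega
  unfold Phi
  have e1 := sq_stable (al := al) (Q := Q) (B := B) hr h1 (max (u.length + 1) j) (le_max_left _ _)
  have e2 := sq_stable (al := al) (Q := Q) (B := B) hr h2 (max (u.length + 1) j) (le_max_right _ _)
  rw [← e1, e2]

theorem sq_off_all {B : Oracle} {y : List Bool}
    (h : ∀ j, y ∉ TT (xin (n j) (r j)) (r j)) (m : ℕ) : sq al n r Q B m y = B y := by
  induction m with
  | zero => rfl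
  | succ m ih => rw [sq_off (h m), ih]

/-- the strings of all the stages -/
def Tall (n r : ℕ → ℕ) : Set (List Bool) := {y | ∃ j, y ∈ TT (xin (n j) (r j)) (r j)}

theorem Phi_off {B : Oracle} {y : List Bool} (h : y ∉ Tall n r) : Phi al n r Q B y = B y :=
  sq_off_all (fun j hj => h ⟨j, hj⟩) _

open Classical in
include hr hn in
theorem count {f : ℕ → ℝ} (hT : ∀ j, ∀ N ≥ 2 ^ (2 * n j + 1),
    ((∑ i ∈ range (j + 1), tot (n i) (r i) : ℕ) : ℝ) ≤ f N) {c : ℝ} (hc0 : 0 ≤ c)
    (hc : ∀ N, 0 ≤ f N + c) (N : ℕ) :
    (((Finset.range N).filter (fun i => str i ∈ Tall n r)).card : ℝ) ≤ f N + c := by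
  have hid : ∀ j, j ≤ n j := by
    intro j
    induction j with
    | zero => omega
    | succ j ih =>
      have := hn j (j + 1) (by omega)
      omega
  have hmem : ∀ i < N, ∀ j, str i ∈ TT (xin (n j) (r j)) (r j) → 2 ^ (2 * n j + 1) ≤ N := by
    intro i hi j hj
    have h1 := (length_TT hj).1
    rw [length_xin (hr j)] at h1
    have h2 := le_idx (str i)
    rw [idx_str] at h2
    have h3 : 2 ^ (2 * n j + 1) ≤ 2 ^ (str i).length := Nat.pow_le_pow_right (by norm_num) h1
    omega
  by_cases hex : ∃ j, 2 ^ (2 * n j + 1) ≤ N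
  · -- the last relevant stage
    have hbd : ∀ j, 2 ^ (2 * n j + 1) ≤ N → j ≤ N := by
      intro j hj
      have h1 : 2 * n j + 1 < 2 ^ (2 * n j + 1) := Nat.lt_two_pow_self
      have := hid j
      omega
    obtain ⟨j0, hj0⟩ := hex
    set J := Nat.findGreatest (fun j => 2 ^ (2 * n j + 1) ≤ N) N with hJ
    have hJ1 : 2 ^ (2 * n J + 1) ≤ N :=
      Nat.findGreatest_spec (P := fun j => 2 ^ (2 * n j + 1) ≤ N) (hbd j0 hj0) hj0
    have hJ2 : ∀ j, 2 ^ (2 * n j + 1) ≤ N → j ≤ J := fun j hj =>
      Nat.le_findGreatest (P := fun j => 2 ^ (2 * n j + 1) ≤ N) (hbd j hj) hj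
    choose F hF1 hF2 using fun j => TT_card (xin (n j) (r j)) (r j)
    have hcard : ((Finset.range N).filter (fun i => str i ∈ Tall n r)).card ≤
        ∑ i ∈ range (J + 1), tot (n i) (r i) := by
      calc ((Finset.range N).filter (fun i => str i ∈ Tall n r)).card
          ≤ ((range (J + 1)).biUnion (fun j => (F j).image idx)).card := by
            refine Finset.card_le_card fun i hi => ?_
            rw [Finset.mem_filter, Finset.mem_range] at hi
            obtain ⟨hi1, j, hj⟩ := hi
            rw [Finset.mem_biUnion]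
            refine ⟨j, Finset.mem_range.2 ?_, ?_⟩
            · have := hJ2 j (hmem i hi1 j hj)
              omega
            · exact Finset.mem_image.2 ⟨str i, hF1 j hj, idx_str i⟩
        _ ≤ ∑ j ∈ range (J + 1), ((F j).image idx).card := Finset.card_biUnion_le
        _ ≤ ∑ j ∈ range (J + 1), tot (n j) (r j) := by
            refine Finset.sum_le_sum fun j _ => Finset.card_image_le.trans ?_
            have := hF2 j
            rwa [length_xin (hr j)] at this
    have h1 := hT J N hJ1
    have h2 : (((Finset.range N).filter (fun i => str i ∈ Tall n r)).card : ℝ) ≤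
        ((∑ i ∈ range (J + 1), tot (n i) (r i) : ℕ) : ℝ) := by exact_mod_cast hcard
    linarith
  · have h1 : (Finset.range N).filter (fun i => str i ∈ Tall n r) = ∅ := by
      rw [Finset.filter_eq_empty_iff]
      rintro i hi ⟨j, hj⟩
      exact hex ⟨j, hmem i (Finset.mem_range.1 hi) j hj⟩
    rw [h1]
    simpa using hc N

end

end Pool.Agent.Helper38K3.ZG
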