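import Pool.Agent.Helper38K3.ZG.Defs
import Pool.Agent.Helper38K3.ZG.Marg
import Pool.Agent.H620R2.GaugeX.X9
import Pool.Agent.H620R2.GaugeX.NonNullX

/-!
# The non-null half: one stage of the construction
-/

namespace Pool.Agent.Helper38K3.ZG

open Pool.Agent.NPC Pool.Agent.H620R2.Gauge H568R2 Finset Pool.Agent.Z45.OG

/-- the markers of the input `x` -/
def mk (x : List Bool) (i : ℕ) : List Bool := pairBits x (false :: Nat.bits i)

/-- `y` is a marker of `x` -/
def IsMk (x y : List Bool) : Prop := ∃ i < 2 * x.length + 2, y = mk x i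

/-- `y` is in the block `b` of `x` -/
def IsBl (x : List Bool) (r : ℕ) (b : Bool) (y : List Bool) : Prop :=
  ∃ w : List Bool, w.length = r ∧ y = pairBits x (true :: b :: w)

theorem pairBits_inj {x w x' w' : List Bool} (h : pairBits x w = pairBits x' w') :
    x = x' ∧ w = w' := by
  have h1 := congrArg unpair h
  rw [unpair_pairBits, unpair_pairBits, Prod.mk.injEq] at h1
  exact h1

theorem not_isMk {x x' : List Bool} {w : List Bool} : ¬ IsMk x (pairBits x' (true :: w)) := by
  rintro ⟨i, _, h⟩
  have h1 := (pairBits_inj h).2
  simp at h1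

theorem mk_inj {x x' : List Bool} {i i' : ℕ} (h : mk x i = mk x' i') : x = x' ∧ i = i' := by
  obtain ⟨h1, h2⟩ := pairBits_inj h
  refine ⟨h1, ?_⟩
  simp only [List.cons.injEq, true_and] at h2
  have h3 : Nat.digits 2 i = Nat.digits 2 i' := by
    rw [Nat.digits_two_eq_bits, Nat.digits_two_eq_bits, h2]
  exact Nat.digits_inj_iff.1 h3

theorem length_mk_le {x : List Bool} {i : ℕ} (hi : i < 2 * x.length + 2) :
    (mk x i).length ≤ 4 * x.length + 4 := by
  unfold mk
  rw [length_pairBits, List.length_cons, Nat.size_eq_bits_len]
  have := NPC.Poly.size_le_self i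
  omega

theorem isBl_iff {x w : List Bool} {r : ℕ} {b b' : Bool} (hw : w.length = r) :
    IsBl x r b (pairBits x (true :: b' :: w)) ↔ b = b' := by
  constructor
  · rintro ⟨w', _, h⟩
    have h1 := (pairBits_inj h).2
    simp only [List.cons.injEq, true_and] at h1
    exact h1.1.symm
  · rintro rfl
    exact ⟨w, hw, rfl⟩

open Classical in
/-- the markers are set and the blocks are empty -/
noncomputable def base (x : List Bool) (r : ℕ) (A : Oracle) : Oracle := fun y =>
  if IsMk x y then true else if ∃ b, IsBl x r b y then false else A y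

/-- the bit: the algorithm must not be right -/
def bit (M : Alg) (x : List Bool) (r : ℕ) (A : Oracle) : Prop :=
  M.out (base x r A) x ≠ some [true]

open Classical in
/-- the markers are set, and one of the blocks is filled except for the strings in `Q` -/
noncomputable def stg (M : Alg) (x : List Bool) (r : ℕ) (Q : Finset (List Bool)) (A : Oracle) :
    Oracle := fun y =>
  if IsMk x y then true else
    if IsBl x r (decide (bit M x r A)) y ∧ y ∉ Q then true else
      if ∃ b, IsBl x r b y then false else A y

variable {M : Alg} {x : List Bool} {r : ℕ} {Q : Finset (List Bool)} {A : Oracle}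

theorem stg_mem {y : List Bool} (hy : y ∈ Q) : stg M x r Q A y = base x r A y := by
  unfold stg base
  simp [hy]

theorem stg_off {y : List Bool} (h1 : ¬ IsMk x y) (h2 : ∀ b, ¬ IsBl x r b y) :
    stg M x r Q A y = A y := by
  unfold stg
  simp [h1, h2]

theorem stg_mk {i : ℕ} (hi : i < 2 * x.length + 2) : stg M x r Q A (mk x i) = true := by
  unfold stg
  rw [if_pos ⟨i, hi, rfl⟩]

open Classical in
theorem stg_bl {w : List Bool} (hw : w.length = r) (b : Bool) :
    stg M x r Q A (pairBits x (true :: b :: w)) = true ↔
      b = decide (bit M x r A) ∧ pairBits x (true :: b :: w) ∉ Q := by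
  unfold stg
  rw [if_neg not_isMk, isBl_iff hw]
  have h : ∃ b', IsBl x r b' (pairBits x (true :: b :: w)) := ⟨b, (isBl_iff hw).2 rfl⟩
  rw [if_pos h]
  by_cases h1 : decide (bit M x r A) = b ∧ pairBits x (true :: b :: w) ∉ Q
  · rw [if_pos h1]
    simp only [true_iff]
    exact ⟨h1.1.symm, h1.2⟩
  · rw [if_neg h1]
    simp only [Bool.false_eq_true, false_iff]
    rintro ⟨h2, h3⟩
    exact h1 ⟨h2.symm, h3⟩

/-! ### The algorithm -/

/-- the number of ones of `x` -/
def rk (x : List Bool) : ℕ := (x.filter (fun b => b)).length

/-- the questions of the algorithm -/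
def ques (y : List Bool) : List (List Bool) :=
  pairBits (unpair y).2 (true :: true :: (unpair y).1.take (rk (unpair y).2)) ::
  pairBits (unpair y).2 (true :: false :: (unpair y).1.take (rk (unpair y).2)) ::
    (List.range (2 * (unpair y).2.length + 2)).map (fun i => mk (unpair y).2 i)

/-- the answer of the algorithm -/
def answ (a : List Bool) : List Bool :=
  if a.tail.tail.all (fun b => b) = true then
    if a.head? = some true then [true] else
      if a.tail.head? = some true then [false] else []
  else [false]

/-- the algorithm -/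
def zV (A : Oracle) (y : List Bool) : List Bool := answ ((ques y).map A)

theorem isFP_zV (A : Oracle) : IsFP A (zV A) := by
  have hw : Poly (fun y => (unpair y).1) := Poly.fst poly_unpair
  have hx : Poly (fun y => (unpair y).2) := Poly.snd poly_unpair
  have hrk : UPoly (fun y => rk (unpair y).2) :=
    UPoly.length (Poly.filter (p := fun (_ : List Bool) (b : Bool) => b) hx (Poly.snd Poly.id))
  have htk : Poly (fun y => (unpair y).1.take (rk (unpair y).2)) := R1.poly_take hw hrk
  have hlen : UPoly (fun y : List Bool => 2 * (unpair y).2.length + 2) :=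
    ((UPoly.const 2).mul (UPoly.length hx)).add (UPoly.const 2)
  have hQ : Poly ques := by
    refine Poly.cons (H622R2.poly_pairBits hx (Poly.cons (NPC.Poly.const true)
      (Poly.cons (NPC.Poly.const true) htk))) (Poly.cons (H622R2.poly_pairBits hx
        (Poly.cons (NPC.Poly.const true) (Poly.cons (NPC.Poly.const false) htk))) ?_)
    refine NPC.Poly.map (F := fun y i => mk (unpair y).2 i) hlen.range ?_
    unfold mk
    exact H622R2.poly_pairBits (hx.comp (Poly.fst Poly.id))
      (Poly.cons (NPC.Poly.const false) (Poly.natBits (Poly.snd Poly.id)))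
  have hH : Poly (fun p : List Bool × List Bool => answ p.2) := by
    have ha : Poly (fun p : List Bool × List Bool => p.2) := Poly.snd Poly.id
    exact Poly.ite (Poly.decide_bool (Poly.all (p := fun (_ : List Bool × List Bool) (b : Bool) => b)
      (Poly.tail (Poly.tail ha)) (Poly.snd Poly.id)))
      (Poly.ite (Poly.decide_eq (Poly.head? ha) (NPC.Poly.const _)) (NPC.Poly.const _)
        (Poly.ite (Poly.decide_eq (Poly.head? (Poly.tail ha)) (NPC.Poly.const _))
          (NPC.Poly.const _) (NPC.Poly.const _))) (NPC.Poly.const _)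
  exact IsFP.tt (A := A) hQ hH

end Pool.Agent.Helper38K3.ZG
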